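import Mathlib
import Pool.Agent.H985.Par.StmPar
import Pool.Agent.H604.FC.Asm4

/-!
# Parity in almost prime `k`-tuples (helper985), task FIB: masses and counting (helper233)
-/

set_option autoImplicit false

namespace Pool.Agent.H233.Par

open Polynomial
open scoped Classical
open Pool.Agent.H985.Chow (MD)
open Pool.Agent.H985.Par
open Pool.Agent.H985.Chow.Asm
open Pool.Agent.H604.FC.Asm4

section mass

variable {K : Type} [Field K] [Fintype K]

/-- the primes of degree at most `n` -/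
def Pn (K : Type) [Field K] (n : ℕ) : Set K[X] :=
  {P : K[X] | P.Monic ∧ Irreducible P ∧ P.natDegree ≤ n}

lemma Pn_finite (n : ℕ) : (Pn K n).Finite :=
  finite_deg (n + 1) _ (fun _ hP => Nat.lt_succ_of_le hP.2.2)

/-- the primes of degree at most `n` in a set -/
noncomputable def Rn (R : Set K[X]) (n : ℕ) : Finset K[X] :=
  ((Pn_finite (K := K) n).inter_of_right R).toFinset

lemma mem_Rn (R : Set K[X]) (n : ℕ) (P : K[X]) :
    P ∈ Rn R n ↔ P ∈ R ∧ P.Monic ∧ Irreducible P ∧ P.natDegree ≤ n := by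
  rw [Rn, Set.Finite.mem_toFinset]
  rfl

lemma mass_eq (R : Set K[X]) (n : ℕ) : mass R n = ∑ P ∈ Rn R n,
    (P.natDegree : ℝ) / (Fintype.card K : ℝ) ^ P.natDegree := by
  unfold mass
  exact finsum_mem_eq_finite_toFinset_sum _ ((Pn_finite (K := K) n).inter_of_right R)

lemma term_nonneg (P : K[X]) : 0 ≤ (P.natDegree : ℝ) / (Fintype.card K : ℝ) ^ P.natDegree := by
  positivity

lemma mass_mono (R : Set K[X]) {d n : ℕ} (h : d ≤ n) : mass R d ≤ mass R n := by
  rw [mass_eq, mass_eq]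
  refine Finset.sum_le_sum_of_subset_of_nonneg ?_ (fun P _ _ => term_nonneg P)
  intro P hP
  rw [mem_Rn] at hP ⊢
  exact ⟨hP.1, hP.2.1, hP.2.2.1, hP.2.2.2.trans h⟩

lemma mass_union (R S : Set K[X]) (n : ℕ) : mass (R ∪ S) n ≤ mass R n + mass S n := by
  rw [mass_eq, mass_eq, mass_eq]
  have h : Rn (R ∪ S) n ⊆ Rn R n ∪ Rn S n := by
    intro P hP
    rw [mem_Rn] at hP
    rw [Finset.mem_union, mem_Rn, mem_Rn]
    rcases hP.1 with h | h
    · exact Or.inl ⟨h, hP.2⟩
    · exact Or.inr ⟨h, hP.2⟩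
  refine (Finset.sum_le_sum_of_subset_of_nonneg h (fun P _ _ => term_nonneg P)).trans ?_
  rw [← Finset.sum_union_inter]
  have : 0 ≤ ∑ P ∈ Rn R n ∩ Rn S n, (P.natDegree : ℝ) / (Fintype.card K : ℝ) ^ P.natDegree :=
    Finset.sum_nonneg fun P _ => term_nonneg P
  linarith

/-- the mass of the prime divisors of a polynomial -/
lemma mass_dvd (F : K[X]) (hF : F ≠ 0) (n y : ℕ) :
    mass {P : K[X] | P ∣ F} n ≤ y * (Fintype.card K : ℝ) ^ (y + 1) +
      F.natDegree / (Fintype.card K : ℝ) ^ y := by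
  have hq1 : (1 : ℝ) < Fintype.card K := by exact_mod_cast Fintype.one_lt_card
  have hq0 : (0 : ℝ) < Fintype.card K := by linarith
  rw [mass_eq, ← Finset.sum_filter_add_sum_filter_not _ (fun P : K[X] => P.natDegree < y + 1)]
  apply add_le_add
  · have h1 : ((Rn {P : K[X] | P ∣ F} n).filter (fun P => P.natDegree < y + 1)).card ≤
        Fintype.card K ^ (y + 1) := by
      rw [← card_deg]
      have h2 : ((Rn {P : K[X] | P ∣ F} n).filter (fun P => P.natDegree < y + 1)) ⊆
          Finset.univ.image (fun u : degreeLT K (y + 1) => (u : K[X])) := by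
        intro P hP
        rw [Finset.mem_filter] at hP
        rw [Finset.mem_image]
        exact ⟨⟨P, mem_of_natDegree_lt (Or.inr hP.2)⟩, Finset.mem_univ _, rfl⟩
      refine (Finset.card_le_card h2).trans (Finset.card_image_le.trans ?_)
      rw [Finset.card_univ]
    calc ∑ P ∈ (Rn {P : K[X] | P ∣ F} n).filter (fun P => P.natDegree < y + 1),
          (P.natDegree : ℝ) / (Fintype.card K : ℝ) ^ P.natDegree
        ≤ ∑ P ∈ (Rn {P : K[X] | P ∣ F} n).filter (fun P => P.natDegree < y + 1), (y : ℝ) := by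
          apply Finset.sum_le_sum
          intro P hP
          rw [Finset.mem_filter] at hP
          have h3 : (P.natDegree : ℝ) ≤ y := by exact_mod_cast Nat.lt_succ_iff.1 hP.2
          have h4 : (1 : ℝ) ≤ (Fintype.card K : ℝ) ^ P.natDegree := one_le_pow₀ hq1.le
          exact (div_le_self (Nat.cast_nonneg _) h4).trans h3
      _ = ((Rn {P : K[X] | P ∣ F} n).filter (fun P => P.natDegree < y + 1)).card * (y : ℝ) := by
          rw [Finset.sum_const, nsmul_eq_mul]
      _ ≤ (Fintype.card K : ℝ) ^ (y + 1) * (y : ℝ) := by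
          apply mul_le_mul_of_nonneg_right _ (Nat.cast_nonneg _)
          exact_mod_cast h1
      _ = _ := mul_comm _ _
  · have h1 : ∏ P ∈ (Rn {P : K[X] | P ∣ F} n).filter (fun P => ¬ P.natDegree < y + 1), P ∣ F := by
      apply Finset.prod_dvd_of_coprime
      · intro P hP P' hP' hne
        rw [Finset.mem_coe, Finset.mem_filter, mem_Rn] at hP hP'
        exact coprime_of_ne ⟨hP.1.2.1, hP.1.2.2.1⟩ ⟨hP'.1.2.1, hP'.1.2.2.1⟩ hne
      · intro P hP
        rw [Finset.mem_filter, mem_Rn] at hP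
        exact hP.1.1
    have h2 := natDegree_le_of_dvd h1 hF
    rw [natDegree_prod_of_monic _ _ (fun P hP => by
      rw [Finset.mem_filter, mem_Rn] at hP
      exact hP.1.2.1)] at h2
    have h2' : ∑ P ∈ (Rn {P : K[X] | P ∣ F} n).filter (fun P => ¬ P.natDegree < y + 1),
        (P.natDegree : ℝ) ≤ F.natDegree := by exact_mod_cast h2
    calc ∑ P ∈ (Rn {P : K[X] | P ∣ F} n).filter (fun P => ¬ P.natDegree < y + 1),
          (P.natDegree : ℝ) / (Fintype.card K : ℝ) ^ P.natDegree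
        ≤ ∑ P ∈ (Rn {P : K[X] | P ∣ F} n).filter (fun P => ¬ P.natDegree < y + 1),
          (P.natDegree : ℝ) / (Fintype.card K : ℝ) ^ y := by
          apply Finset.sum_le_sum
          intro P hP
          rw [Finset.mem_filter] at hP
          apply div_le_div_of_nonneg_left (Nat.cast_nonneg _) (by positivity)
          exact pow_le_pow_right₀ hq1.le (by omega)
      _ = (∑ P ∈ (Rn {P : K[X] | P ∣ F} n).filter (fun P => ¬ P.natDegree < y + 1),
          (P.natDegree : ℝ)) / (Fintype.card K : ℝ) ^ y := by rw [Finset.sum_div]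
      _ ≤ _ := div_le_div_of_nonneg_right h2' (by positivity)

end mass

section count

variable {K : Type} [Field K] [Fintype K]

/-- the polynomials `b` to which the window bound applies -/
def gdP (Pd : ℕ → K[X] → Prop) (D₀ : ℕ) (b : K[X]) : Prop :=
  ∃ (c : K) (b₁ : K[X]), c ≠ 0 ∧ b = C c * b₁ ∧ b₁.Monic ∧ D₀ ≤ b₁.natDegree ∧
    Pd b₁.natDegree b₁

/-- the bad `b` -/
noncomputable def badP (Pd : ℕ → K[X] → Prop) (D₀ n : ℕ) : Finset (degreeLT K (n / 2)) :=
  (Finset.univ : Finset (degreeLT K (n / 2))).filter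
    (fun v : degreeLT K (n / 2) => ¬ gdP Pd D₀ (tb K n + (v : K[X])))

lemma mem_badP (Pd : ℕ → K[X] → Prop) (D₀ n : ℕ) (v : degreeLT K (n / 2)) :
    v ∈ badP Pd D₀ n ↔ ¬ gdP Pd D₀ (tb K n + (v : K[X])) := by
  rw [badP, Finset.mem_filter]
  simp

lemma MDfin (d : ℕ) : (MD K d).Finite := MD_finite d

lemma badP_odd (Pd : ℕ → K[X] → Prop) (D₀ n : ℕ) (hn : n % 2 = 1) (hD : D₀ ≤ n / 2) :
    (badP Pd D₀ n).card ≤ (MD K (n / 2) ∩ {b | ¬ Pd (n / 2) b}).ncard := by
  have h1 : tb K n = X ^ (n / 2) := by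
    rw [tb, if_neg (by omega)]
  rw [← Set.ncard_coe_finset, ← Set.ncard_image_of_injective
    ((badP Pd D₀ n : Finset _) : Set (degreeLT K (n / 2)))
    (f := fun v : degreeLT K (n / 2) => tb K n + (v : K[X]))
    (fun v v' hv => Subtype.ext (add_left_cancel hv))]
  refine Set.ncard_le_ncard (s := (fun v : degreeLT K (n / 2) => tb K n + (v : K[X])) ''
    ((badP Pd D₀ n : Finset _) : Set (degreeLT K (n / 2))))
    (t := MD K (n / 2) ∩ {b | ¬ Pd (n / 2) b}) ?_ ((MDfin _).inter_of_left _)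
  rintro b ⟨v, hv, rfl⟩
  rw [Finset.mem_coe, mem_badP] at hv
  have hdv : (v : K[X]).degree < (n / 2 : ℕ) := mem_degreeLT.mp v.2
  have hm : (X ^ (n / 2) + (v : K[X])).Monic := monic_X_pow_add hdv
  have hd : (X ^ (n / 2) + (v : K[X])).natDegree = n / 2 := by
    have := degree_add_eq_left_of_degree_lt (p := (X ^ (n / 2) : K[X])) (q := (v : K[X]))
      (by rw [degree_X_pow]; exact hdv)
    rw [natDegree_eq_of_degree_eq this, natDegree_X_pow]
  simp only [h1] at hv ⊢
  refine ⟨⟨hm, hd⟩, fun hg => hv ?_⟩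
  refine ⟨1, X ^ (n / 2) + (v : K[X]), one_ne_zero, by simp, hm, by rw [hd]; exact hD, ?_⟩
  rw [hd]
  exact hg

lemma badP_even (Pd : ℕ → K[X] → Prop) (D₀ n : ℕ) (hn : n % 2 = 0) :
    (badP Pd D₀ n).card ≤
      Fintype.card K ^ D₀ + ∑ d ∈ Finset.Ico D₀ (n / 2),
        (Fintype.card K - 1) * (MD K d ∩ {b | ¬ Pd d b}).ncard := by
  have h1 : tb K n = 0 := by
    rw [tb, if_pos hn]
  have hf : ∀ d, (MD K d ∩ {b | ¬ Pd d b}).Finite := fun d => (MDfin d).inter_of_left _
  set T : Finset K[X] := (Finset.univ.image (fun u : degreeLT K D₀ => (u : K[X]))) ∪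
    (Finset.Ico D₀ (n / 2)).biUnion (fun d =>
      ((Finset.univ : Finset K).erase 0).biUnion (fun c =>
        (hf d).toFinset.image (fun b₁ => C c * b₁))) with hT
  have h2 : ((badP Pd D₀ n).image (fun v : degreeLT K (n / 2) => (v : K[X]))) ⊆ T := by
    intro b hb
    rw [Finset.mem_image] at hb
    obtain ⟨v, hv, rfl⟩ := hb
    rw [mem_badP, h1, zero_add] at hv
    rw [hT, Finset.mem_union]
    by_cases h0 : (v : K[X]) = 0
    · left
      rw [Finset.mem_image]
      exact ⟨0, Finset.mem_univ _, h0.symm⟩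
    by_cases hlt : (v : K[X]).natDegree < D₀
    · left
      rw [Finset.mem_image]
      exact ⟨⟨v, mem_of_natDegree_lt (Or.inr hlt)⟩, Finset.mem_univ _, rfl⟩
    right
    have hvd := natDegree_lt_of_mem v.2 h0
    set c := (v : K[X]).leadingCoeff with hc
    have hc0 : c ≠ 0 := leadingCoeff_ne_zero.mpr h0
    have hm : (C c⁻¹ * (v : K[X])).Monic := monic_C_mul_of_mul_leadingCoeff_eq_one
      (by rw [← hc]; exact inv_mul_cancel₀ hc0)
    have hd : (C c⁻¹ * (v : K[X])).natDegree = (v : K[X]).natDegree :=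
      natDegree_C_mul (inv_ne_zero hc0)
    have he : (v : K[X]) = C c * (C c⁻¹ * (v : K[X])) := by
      rw [← mul_assoc, ← C_mul, mul_inv_cancel₀ hc0, C_1, one_mul]
    rw [Finset.mem_biUnion]
    refine ⟨(v : K[X]).natDegree, Finset.mem_Ico.mpr ⟨not_lt.mp hlt, hvd⟩, ?_⟩
    rw [Finset.mem_biUnion]
    refine ⟨c, Finset.mem_erase.mpr ⟨hc0, Finset.mem_univ _⟩, ?_⟩
    rw [Finset.mem_image]
    refine ⟨C c⁻¹ * (v : K[X]), ?_, he.symm⟩
    rw [Set.Finite.mem_toFinset]
    refine ⟨⟨hm, hd⟩, fun hg => hv ?_⟩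
    refine ⟨c, C c⁻¹ * (v : K[X]), hc0, he, hm, by rw [hd]; omega, ?_⟩
    rw [hd]
    exact hg
  rw [← Finset.card_image_of_injective _ (f := fun v : degreeLT K (n / 2) => (v : K[X]))
    Subtype.coe_injective]
  refine (Finset.card_le_card h2).trans ?_
  refine (Finset.card_union_le _ _).trans ?_
  apply add_le_add
  · refine Finset.card_image_le.trans ?_
    rw [Finset.card_univ, card_deg]
  · refine Finset.card_biUnion_le.trans ?_
    apply Finset.sum_le_sum
    intro d _
    refine Finset.card_biUnion_le.trans ?_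
    have h3 : ∀ c ∈ (Finset.univ : Finset K).erase 0,
        ((hf d).toFinset.image (fun b₁ => C c * b₁)).card ≤
          (MD K d ∩ {b | ¬ Pd d b}).ncard := by
      intro c _
      refine Finset.card_image_le.trans ?_
      rw [Set.ncard_eq_toFinset_card _ (hf d)]
    refine (Finset.sum_le_sum h3).trans ?_
    rw [Finset.sum_const, Finset.card_erase_of_mem (Finset.mem_univ _), Finset.card_univ,
      smul_eq_mul]

lemma badP_card (Pd : ℕ → K[X] → Prop) (D₀ j n : ℕ) (ε : ℝ) (hε : 0 < ε)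
    (hj : (1 / (Fintype.card K : ℝ)) ^ j ≤ ε)
    (hd : ∀ d : ℕ, D₀ ≤ d → d ≤ n / 2 → ((MD K d ∩ {b | ¬ Pd d b}).ncard : ℝ) ≤
      ε * (Fintype.card K : ℝ) ^ d) (hn : D₀ + j ≤ n / 2) :
    ((badP Pd D₀ n).card : ℝ) ≤ 2 * ε * (Fintype.card K : ℝ) ^ (n / 2) := by
  have hq1 : (1 : ℝ) < Fintype.card K := by exact_mod_cast Fintype.one_lt_card
  have hq0 : (0 : ℝ) < Fintype.card K := by linarith
  have hqm : (0 : ℝ) < (Fintype.card K : ℝ) ^ (n / 2) := pow_pos hq0 _
  rcases Nat.mod_two_eq_zero_or_one n with h0 | h1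
  · have h2 : ((badP Pd D₀ n).card : ℝ) ≤
      (Fintype.card K : ℝ) ^ D₀ + ∑ d ∈ Finset.Ico D₀ (n / 2),
        ((Fintype.card K : ℝ) - 1) * (MD K d ∩ {b | ¬ Pd d b}).ncard := by
      have h3 := badP_even Pd D₀ n h0
      have h4 : ((badP Pd D₀ n).card : ℝ) ≤ ((Fintype.card K ^ D₀ +
        ∑ d ∈ Finset.Ico D₀ (n / 2),
        (Fintype.card K - 1) * (MD K d ∩ {b | ¬ Pd d b}).ncard : ℕ) : ℝ) := by
        exact_mod_cast h3
      refine h4.trans (le_of_eq ?_)
      push_cast [Nat.cast_sub (Fintype.card_pos (α := K))]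
      rfl
    have h5 : (Fintype.card K : ℝ) ^ D₀ ≤ ε * (Fintype.card K : ℝ) ^ (n / 2) := by
      have h6 : (Fintype.card K : ℝ) ^ (D₀ + j) ≤ (Fintype.card K : ℝ) ^ (n / 2) :=
        pow_le_pow_right₀ hq1.le hn
      have h7 : (Fintype.card K : ℝ) ^ D₀ =
          (1 / (Fintype.card K : ℝ)) ^ j * (Fintype.card K : ℝ) ^ (D₀ + j) := by
        rw [pow_add, one_div, inv_pow]
        field_simp
      rw [h7]
      exact mul_le_mul hj h6 (by positivity) hε.le
    have h8 : ∑ d ∈ Finset.Ico D₀ (n / 2),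
        ((Fintype.card K : ℝ) - 1) * (MD K d ∩ {b | ¬ Pd d b}).ncard ≤
        ε * (Fintype.card K : ℝ) ^ (n / 2) := by
      calc ∑ d ∈ Finset.Ico D₀ (n / 2),
          ((Fintype.card K : ℝ) - 1) * (MD K d ∩ {b | ¬ Pd d b}).ncard
          ≤ ∑ d ∈ Finset.Ico D₀ (n / 2),
            ((Fintype.card K : ℝ) - 1) * (ε * (Fintype.card K : ℝ) ^ d) := by
            apply Finset.sum_le_sum
            intro d hdm
            rw [Finset.mem_Ico] at hdm
            apply mul_le_mul_of_nonneg_left (hd d hdm.1 hdm.2.le) (by linarith)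
        _ ≤ ∑ d ∈ Finset.range (n / 2),
            ((Fintype.card K : ℝ) - 1) * (ε * (Fintype.card K : ℝ) ^ d) := by
            apply Finset.sum_le_sum_of_subset_of_nonneg
            · intro d hdm
              rw [Finset.mem_Ico] at hdm
              exact Finset.mem_range.mpr hdm.2
            · intro d _ _
              have : (0 : ℝ) < (Fintype.card K : ℝ) ^ d := pow_pos hq0 _
              apply mul_nonneg (by linarith)
              positivity
        _ = ε * ((∑ d ∈ Finset.range (n / 2), (Fintype.card K : ℝ) ^ d) *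
              ((Fintype.card K : ℝ) - 1)) := by
            rw [Finset.sum_mul, Finset.mul_sum]
            apply Finset.sum_congr rfl
            intro d _
            ring
        _ = ε * ((Fintype.card K : ℝ) ^ (n / 2) - 1) := by rw [geom_sum_mul]
        _ ≤ ε * (Fintype.card K : ℝ) ^ (n / 2) := by
            apply mul_le_mul_of_nonneg_left _ hε.le
            linarith
    linarith
  · have h2 : ((badP Pd D₀ n).card : ℝ) ≤
        ((MD K (n / 2) ∩ {b | ¬ Pd (n / 2) b}).ncard : ℝ) := by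
      exact_mod_cast badP_odd Pd D₀ n h1 (by omega)
    have h3 := hd (n / 2) (by omega) le_rfl
    have h4 : ε * (Fintype.card K : ℝ) ^ (n / 2) ≤ 2 * ε * (Fintype.card K : ℝ) ^ (n / 2) :=
      mul_le_mul_of_nonneg_right (by linarith) hqm.le
    linarith

end count

section fibre

variable {K : Type} [Field K] [Fintype K] [CharP K 2]

lemma Fb_eq (n : ℕ) : Fb K n = (fun v : K[X] => tb K n + v) '' (degreeLT K (n / 2) : Set K[X]) := by
  ext b
  constructor
  · rintro ⟨a, hm, hd⟩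
    have h : G a b ∈ MD K n := ⟨hm, hd⟩
    obtain ⟨v, hv, v', hv', he⟩ := mem_G n _ h
    exact ⟨v', hv', (G_inj he).2⟩
  · rintro ⟨v', hv', rfl⟩
    have h := G_mem n 0 v' (zero_mem _) hv'
    exact ⟨ta K n + 0, h.1, h.2⟩

lemma Fb_add (n : ℕ) {b τ : K[X]} (hb : b ∈ Fb K n) (hτ : τ ∈ degreeLT K (n / 2)) :
    b + τ ∈ Fb K n := by
  rw [Fb_eq] at hb ⊢
  obtain ⟨v, hv, rfl⟩ := hb
  exact ⟨v + τ, add_mem hv hτ, by simp only; ring⟩

/-- the exceptional set -/
def ExcP {r : ℕ} (τ : Fin r → K[X]) (Pd : ℕ → K[X] → Prop) (D₀ n : ℕ) : Set K[X] :=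
  {b ∈ Fb K n | ∃ l, ¬ gdP Pd D₀ (b + τ l)}

lemma Exc_card {r : ℕ} (τ : Fin r → K[X]) (Pd : ℕ → K[X] → Prop) (D₀ n : ℕ)
    (hτ : ∀ l, τ l ∈ degreeLT K (n / 2)) :
    (ExcP τ Pd D₀ n).ncard ≤ r * (badP Pd D₀ n).card := by
  have h1 : ExcP τ Pd D₀ n ⊆ (((Finset.univ : Finset (Fin r)).biUnion (fun l =>
      (badP Pd D₀ n).image (fun v : degreeLT K (n / 2) => tb K n + (v : K[X]) - τ l)) :
        Finset K[X]) : Set K[X]) := by
    rintro b ⟨hb, l, hl⟩
    have h2 := Fb_add n hb (hτ l)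
    rw [Fb_eq] at h2
    obtain ⟨v, hv, he⟩ := h2
    simp only at he
    rw [Finset.mem_coe, Finset.mem_biUnion]
    refine ⟨l, Finset.mem_univ _, ?_⟩
    rw [Finset.mem_image]
    refine ⟨⟨v, hv⟩, ?_, ?_⟩
    · rw [mem_badP]
      simp only
      rw [he]
      exact hl
    · simp only
      rw [he, add_sub_cancel_right]
  refine (Set.ncard_le_ncard h1 (Finset.finite_toSet _)).trans ?_
  rw [Set.ncard_coe_finset]
  refine Finset.card_biUnion_le.trans ?_
  calc ∑ l : Fin r, ((badP Pd D₀ n).image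
        (fun v : degreeLT K (n / 2) => tb K n + (v : K[X]) - τ l)).card
      ≤ ∑ _l : Fin r, (badP Pd D₀ n).card :=
        Finset.sum_le_sum (fun l _ => Finset.card_image_le)
    _ = _ := by rw [Finset.sum_const, Finset.card_univ, Fintype.card_fin, smul_eq_mul]

end fibre

end Pool.Agent.H233.Par
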