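import Mathlib
import Pool.Agent.H233.Par.FibA

/-!
# Parity in almost prime `k`-tuples (helper985), task FIB: the bound for one fibre (helper233)
-/

set_option autoImplicit false

namespace Pool.Agent.H233.Par

open Polynomial
open scoped Classical
open Pool.Agent.H985.Chow (MD)
open Pool.Agent.H985.KP (PA mobg)
open Pool.Agent.H985.Par
open Pool.Agent.H985.Chow.Asm
open Pool.Agent.H604.FC.Asm4

/-- the window bound with a constant -/
def W5 (k r : ℕ) (M : ℝ) : Prop := 1 ≤ M ∧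
  ∀ (K : Type) [Field K] [Fintype K] [CharP K 2] (n L D T : ℕ) (c : Fin r → K) (a E : K[X])
    (e h' h'' : Fin r → K[X]) (s g : Fin k → K[X]) (cl : Fin k → Fin r) (j₀ : Fin r)
    (χ : AddChar K[X] ℝ),
    (∀ j, c j ≠ 0) → E ≠ 0 → 1 ≤ L →
    (∀ j, (e j).Monic ∧ (h' j).Monic ∧ (h'' j).Monic ∧ IsCoprime (e j) (h' j * h'' j) ∧
      Squarefree (h' j * h'' j) ∧ IsCoprime E (h' j * h'' j) ∧ e j ^ 5 ∣ E ∧
      (h' j).natDegree + D ≤ L ∧ (h'' j).natDegree + D ≤ L ∧
      2 * (E.natDegree + (L - 1)) + 3 * n ≤ 8 * (e j * (h' j * h'' j)).natDegree + 2) →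
    (∀ i j, i ≠ j → IsCoprime (h' i * h'' i) (h' j * h'' j)) → (∃ i, cl i = j₀) →
    (∀ i, (g i).Monic ∧ g i ∣ e (cl i)) →
    (∀ i j, i ≠ j → cl i = cl j → IsCoprime (s i - s j) (h'' (cl i))) →
    (∀ i, ((a + s i) ^ 2 + X * (C (c (cl i)) * (e (cl i) * (h' (cl i) * h'' (cl i)))) ^ 2).Monic ∧
      ((a + s i) ^ 2 + X * (C (c (cl i)) * (e (cl i) * (h' (cl i) * h'' (cl i)))) ^ 2).natDegree =
        n) →
    L ≤ 2 * (h'' j₀).natDegree → (6 * r + 3) * T ≤ D →
    |∑ᶠ u ∈ {u : K[X] | u.degree < (L : WithBot ℕ)}, χ u * ∏ i,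
        (mobg (g i) ((a + s i + E * u) ^ 2 +
          X * (C (c (cl i)) * (e (cl i) * (h' (cl i) * h'' (cl i)))) ^ 2) : ℝ)| ^
            (2 ^ (6 * r + 1)) ≤
      M ^ (∑ j, (PA (h' j * h'' j)).ncard) * (Fintype.card K : ℝ) ^ (L * 2 ^ (6 * r + 1)) /
        (Fintype.card K : ℝ) ^ T

theorem W5_of (h : Pool.Agent.H524.FC.S_win5c) (k r : ℕ) : ∃ M, W5 k r M := h k r

section alg

variable {K : Type} [Field K]

/-- coprimality from prime divisors -/
lemma cop_of {a b : K[X]} (h0 : ¬ (a = 0 ∧ b = 0))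
    (h : ∀ P : K[X], P.Monic → Irreducible P → P ∣ a → ¬ P ∣ b) : IsCoprime a b := by
  refine isCoprime_of_irreducible_dvd h0 ?_
  intro z hz hza hzb
  have hz0 : z ≠ 0 := hz.ne_zero
  have hlc : z.leadingCoeff ≠ 0 := leadingCoeff_ne_zero.2 hz0
  have hm : (C z.leadingCoeff⁻¹ * z).Monic :=
    monic_C_mul_of_mul_leadingCoeff_eq_one (inv_mul_cancel₀ hlc)
  have hu : IsUnit (C z.leadingCoeff⁻¹ : K[X]) :=
    isUnit_C.2 (isUnit_iff_ne_zero.2 (inv_ne_zero hlc))
  have hass : Associated z (C z.leadingCoeff⁻¹ * z) :=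
    (associated_unit_mul_left z _ hu).symm
  refine h (C z.leadingCoeff⁻¹ * z) hm (hass.irreducible hz) ?_ ?_
  · exact hass.symm.dvd.trans hza
  · exact hass.symm.dvd.trans hzb

lemma not_dvd_of_cop {a b P : K[X]} (h : IsCoprime a b) (hP : Irreducible P) (ha : P ∣ a) :
    ¬ P ∣ b := by
  intro hb
  have h1 : IsCoprime P P := (h.of_isCoprime_of_dvd_left ha).of_isCoprime_of_dvd_right hb
  exact hP.not_isUnit (isCoprime_self.1 h1)

lemma natDegree_nz (x : K[X]) : (nz x).natDegree ≤ x.natDegree := by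
  unfold nz
  split_ifs with h
  · simp
  · exact le_rfl

lemma SS_natDegree {k r : ℕ} (s : Fin k → K[X]) (τ : Fin r → K[X]) (B : ℕ)
    (hs : ∀ i, (s i).natDegree ≤ B) (hτ : ∀ l, (τ l).natDegree ≤ B) :
    (SS s (fun _ => (1 : K[X])) τ 1).natDegree ≤ (r * r + k * k) * B := by
  unfold SS
  rw [one_mul, Finset.prod_const_one, one_mul, add_mul]
  refine natDegree_mul_le.trans (add_le_add ?_ ?_)
  · refine (natDegree_prod_le _ _).trans ?_
    calc ∑ p : Fin r × Fin r, (nz (τ p.1 - τ p.2)).natDegree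
        ≤ ∑ _p : Fin r × Fin r, B := by
          apply Finset.sum_le_sum
          intro p _
          exact (natDegree_nz _).trans ((natDegree_sub_le _ _).trans (max_le (hτ _) (hτ _)))
      _ = r * r * B := by
          rw [Finset.sum_const, Finset.card_univ, Fintype.card_prod, Fintype.card_fin, smul_eq_mul]
  · refine (natDegree_prod_le _ _).trans ?_
    calc ∑ p : Fin k × Fin k, (nz (s p.1 - s p.2)).natDegree
        ≤ ∑ _p : Fin k × Fin k, B := by
          apply Finset.sum_le_sum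
          intro p _
          exact (natDegree_nz _).trans ((natDegree_sub_le _ _).trans (max_le (hs _) (hs _)))
      _ = k * k * B := by
          rw [Finset.sum_const, Finset.card_univ, Fintype.card_prod, Fintype.card_fin, smul_eq_mul]

end alg

section shifts

variable {K : Type} [Field K] [Fintype K] [CharP K 2]

omit [Fintype K] in
lemma mem_of_G {n : ℕ} {s t : K[X]} (h : (s ^ 2 + X * t ^ 2).natDegree < n) :
    s ∈ degreeLT K ((n + 1) / 2) ∧ t ∈ degreeLT K (n / 2) := by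
  have hG : (G s t).natDegree < n := h
  constructor
  · rw [mem_deg]
    intro i hi
    have h1 := coeff_G_even s t i
    rw [coeff_eq_zero_of_natDegree_lt (by omega)] at h1
    exact (pow_eq_zero_iff (by norm_num)).1 h1.symm
  · rw [mem_deg]
    intro i hi
    have h1 := coeff_G_odd s t i
    rw [coeff_eq_zero_of_natDegree_lt (by omega)] at h1
    exact (pow_eq_zero_iff (by norm_num)).1 h1.symm

omit [Fintype K] [CharP K 2] in
lemma natDegree_of_mem {m : ℕ} {u : K[X]} (h : u ∈ degreeLT K m) : u.natDegree ≤ m := by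
  by_cases h0 : u = 0
  · rw [h0]; simp
  · exact (natDegree_lt_of_mem h h0).le

omit [Fintype K] in
lemma G_monic {n : ℕ} {a b s t : K[X]} (hm : (a ^ 2 + X * b ^ 2).Monic)
    (hn : (a ^ 2 + X * b ^ 2).natDegree = n) (h : (s ^ 2 + X * t ^ 2).natDegree < n) :
    ((a + s) ^ 2 + X * (b + t) ^ 2).Monic ∧ ((a + s) ^ 2 + X * (b + t) ^ 2).natDegree = n := by
  have e : (a + s) ^ 2 + X * (b + t) ^ 2 = (a ^ 2 + X * b ^ 2) + (s ^ 2 + X * t ^ 2) :=
    G_add a b s t
  rw [e]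
  have h1 : (s ^ 2 + X * t ^ 2).natDegree < (a ^ 2 + X * b ^ 2).natDegree := by rwa [hn]
  refine ⟨hm.add_of_left (degree_lt_degree h1), ?_⟩
  rw [natDegree_add_eq_left_of_natDegree_lt h1, hn]

lemma deg_le_of_Fb {n : ℕ} {b b₁ : K[X]} {c : K} (hb : b ∈ Fb K n) (hc : c ≠ 0)
    (h : b = C c * b₁) (hb1 : b₁.Monic) : 2 * b₁.natDegree + 1 ≤ n := by
  rw [Fb_eq] at hb
  obtain ⟨v, hv, he⟩ := hb
  simp only at he
  by_contra hcon
  have h1 := tb_coeff n v hv b₁.natDegree (by omega)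
  rw [he, h, coeff_C_mul, Monic.coeff_natDegree hb1, mul_one] at h1
  exact hc h1

end shifts

section main

variable {K : Type} [Field K] [Fintype K] [CharP K 2]

lemma local_bound {k r : ℕ} {Mw : ℝ} (hM : W5 k r Mw) (s : Fin k → K[X]) (τ : Fin r → K[X])
    (cl : Fin k → Fin r) (hcl : Function.Surjective cl) (hr : 0 < r)
    (hτ : Function.Injective τ) (hs : ∀ i i', i ≠ i' → cl i = cl i' → s i ≠ s i')
    (δ κ κ₁ : ℝ) (hδ : 0 < δ) (hκ : 0 < κ) (hκ22 : κ ≤ 1 / 22) (hκδ : κ ≤ δ / 44)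
    (hκ₁ : 0 ≤ κ₁) (hκ₁δ : κ₁ ≤ δ) (n D₀ : ℕ) (hn : 1 ≤ n) (hD₀ : (1 / 2 - κ / 8) * n ≤ D₀)
    (hst : ∀ i, (s i ^ 2 + X * τ (cl i) ^ 2).natDegree < n)
    (R : Set K[X]) (b : K[X]) (hb : b ∈ Fb K n)
    (hgood : ∀ l, gdP (GoodV (R ∪ {P | P ∣ SS s (fun _ => 1) τ 1}) δ κ₁) D₀ (b + τ l)) :
    ∃ E : K[X], E.Monic ∧ (E.natDegree : ℝ) ≤ r * (5 * (κ₁ * (n / 2))) ∧
      (∀ P ∈ R, P.Monic → Irreducible P → (∃ i, P ∣ b + τ (cl i)) → P ∣ E) ∧
      ∀ (M : K[X]) (g : Fin k → K[X]) (L : ℕ) (a : K[X]) (χ : AddChar K[X] ℝ),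
        M ≠ 0 → E ∣ M → (M.natDegree : ℝ) ≤ 4 * κ * n →
        (∀ P : K[X], P.Monic → Irreducible P → P ∣ M → P ∣ E ∨ ∀ i, ¬ P ∣ b + τ (cl i)) →
        (∀ i, (g i).Monic ∧ ∀ P : K[X], P.Monic → Irreducible P → P ∣ g i → P ∈ R) →
        (a ^ 2 + X * b ^ 2).Monic → (a ^ 2 + X * b ^ 2).natDegree = n →
        (1 - 3 * κ) * n ≤ 2 * ((M.natDegree : ℝ) + L) →
        2 * ((M.natDegree : ℝ) + L) ≤ (1 - κ) * n →
        ∃ H : Fin r → K[X], (∀ l, H l ≠ 0 ∧ (H l).natDegree ≤ n) ∧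
        |∑ᶠ u ∈ {u : K[X] | u.degree < (L : WithBot ℕ)}, χ u * ∏ i,
          (mobg (g i) ((a + s i + M * u) ^ 2 + X * (b + τ (cl i)) ^ 2) : ℝ)| ^
            (2 ^ (6 * r + 1)) ≤
          Mw ^ (∑ l, (PA (H l)).ncard) * (Fintype.card K : ℝ) ^ (L * 2 ^ (6 * r + 1)) /
            (Fintype.card K : ℝ) ^ (⌊δ * n / 4⌋₊ / (6 * r + 3)) := by
  obtain ⟨hMw1, hW⟩ := hM
  choose c b₁ hc hbb hb1 hDd hg using hgood
  choose e h₁ h₂ hbe he hh₁ hh₂ heh hsq hRh hκe hδ1 hδ2 using hg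
  have hτm : ∀ l, τ l ∈ degreeLT K (n / 2) := by
    intro l
    obtain ⟨i, rfl⟩ := hcl l
    exact (mem_of_G (hst i)).2
  have hdn : ∀ l, 2 * (b₁ l).natDegree + 1 ≤ n := fun l =>
    deg_le_of_Fb (Fb_add n hb (hτm l)) (hc l) (hbb l) (hb1 l)
  have hB : ∀ l, C (c l) * (e l * (h₁ l * h₂ l)) = b + τ l := by
    intro l
    rw [hbb l, ← hbe l]
  have hh12 : ∀ l, (h₁ l * h₂ l).Monic := fun l => (hh₁ l).mul (hh₂ l)
  have hdeh : ∀ l, (e l * (h₁ l * h₂ l)).natDegree = (b₁ l).natDegree := fun l => by rw [← hbe]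
  have hdd : ∀ l, (e l).natDegree + ((h₁ l).natDegree + (h₂ l).natDegree) =
      (b₁ l).natDegree := by
    intro l
    rw [← hdeh l, (he l).natDegree_mul (hh12 l), (hh₁ l).natDegree_mul (hh₂ l)]
  have hdvdB : ∀ l (P : K[X]), P ∣ h₁ l * h₂ l → P ∣ b + τ l := by
    intro l P hP
    rw [← hB l]
    exact ((hP.mul_left _).mul_left _)
  have hedvdB : ∀ l (P : K[X]), P ∣ e l → P ∣ b + τ l := by
    intro l P hP
    rw [← hB l]
    exact ((hP.mul_right _).mul_left _)
  -- a prime divides at most one class and a divisor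
  have hcross : ∀ l l' (P : K[X]), P.Monic → Irreducible P → l ≠ l' → P ∣ b + τ l' →
      ¬ P ∣ h₁ l * h₂ l := by
    intro l l' P hPm hPi hll h1 h2
    refine hRh l P (Or.inr ?_) hPm hPi h2
    have h3 := hdvdB l P h2
    have h4 : P ∣ τ l - τ l' := by
      have h5 := dvd_sub h3 h1
      have h6 : b + τ l - (b + τ l') = τ l - τ l' := by ring
      rwa [h6] at h5
    exact h4.trans (SS_τ s (fun _ => 1) τ 1 l l' (fun h => hll (hτ h)))
  refine ⟨∏ l, e l ^ 5, monic_prod_of_monic _ _ (fun l _ => (he l).pow 5), ?_, ?_, ?_⟩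
  · rw [natDegree_prod_of_monic _ _ (fun l _ => (he l).pow 5)]
    push_cast
    calc ∑ l : Fin r, ((e l ^ 5).natDegree : ℝ) ≤ ∑ _l : Fin r, (5 * (κ₁ * (n / 2)) : ℝ) := by
          apply Finset.sum_le_sum
          intro l _
          rw [natDegree_pow]
          push_cast
          have h1 := hκe l
          have h2 : (2 * ((b₁ l).natDegree : ℝ) + 1) ≤ n := by exact_mod_cast hdn l
          have h3 : κ₁ * ((b₁ l).natDegree : ℝ) ≤ κ₁ * (n / 2) :=
            mul_le_mul_of_nonneg_left (by linarith) hκ₁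
          linarith
      _ = _ := by
          rw [Finset.sum_const, Finset.card_univ, Fintype.card_fin, nsmul_eq_mul]
  · rintro P hPR hPm hPi ⟨i, hPb⟩
    rw [← hB] at hPb
    rcases hPi.prime.dvd_or_dvd hPb with h1 | h1
    · have hu : IsUnit (C (c (cl i)) : K[X]) := isUnit_C.2 (isUnit_iff_ne_zero.2 (hc _))
      exact absurd (isUnit_of_dvd_unit h1 hu) hPi.not_isUnit
    · rcases hPi.prime.dvd_or_dvd h1 with h2 | h2
      · exact (dvd_pow h2 (by norm_num)).trans
          (Finset.dvd_prod_of_mem (fun l => e l ^ 5) (Finset.mem_univ (cl i)))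
      · exact absurd h2 (hRh _ P (Or.inl hPR) hPm hPi)
  · intro M g L a χ hM0 hEM hMd hMP hg hmon hdeg hL1 hL2
    refine ⟨fun l => h₁ l * h₂ l, fun l => ⟨(hh12 l).ne_zero, ?_⟩, ?_⟩
    · have h1 := hdd l
      have h2 := hdn l
      rw [(hh₁ l).natDegree_mul (hh₂ l)]
      omega
    have hgcop : ∀ i l, IsCoprime (g i) (h₁ l * h₂ l) := by
      intro i l
      refine cop_of (fun h => (hg i).1.ne_zero h.1) ?_
      intro P hPm hPi h1
      exact hRh l P (Or.inl ((hg i).2 P hPm hPi h1)) hPm hPi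
    by_cases hge : ∃ i, ¬ g i ∣ e (cl i)
    · obtain ⟨i, hi⟩ := hge
      have hz : ∀ u ∈ {u : K[X] | u.degree < (L : WithBot ℕ)}, χ u * ∏ i,
          (mobg (g i) ((a + s i + M * u) ^ 2 + X * (b + τ (cl i)) ^ 2) : ℝ) = 0 := by
        intro u _
        have h0 : mobg (g i) (G (a + s i + M * u) (b + τ (cl i))) = 0 := by
          by_contra hne
          have h1 := mobg_dvd _ _ _ hne
          rw [← hB] at h1
          have h2 : g i ∣ e (cl i) * (h₁ (cl i) * h₂ (cl i)) := by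
            have hu : IsUnit (C (c (cl i)) : K[X]) := isUnit_C.2 (isUnit_iff_ne_zero.2 (hc _))
            exact (hu.dvd_mul_left).1 h1
          exact hi ((hgcop i (cl i)).dvd_of_dvd_mul_right h2)
        have h1 : ∏ i, (mobg (g i) ((a + s i + M * u) ^ 2 + X * (b + τ (cl i)) ^ 2) : ℝ) = 0 :=
          Finset.prod_eq_zero (Finset.mem_univ i) (by
            unfold G at h0
            rw [h0]
            simp)
        rw [h1, mul_zero]
      rw [finsum_mem_congr rfl hz, finsum_mem_zero, abs_zero, zero_pow (by positivity)]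
      have : 0 ≤ Mw := by linarith
      positivity
    push Not at hge
    have hMcop : ∀ l, IsCoprime M (h₁ l * h₂ l) := by
      intro l
      refine cop_of (fun h => hM0 h.1) ?_
      intro P hPm hPi h1 h2
      rcases hMP P hPm hPi h1 with h3 | h3
      · obtain ⟨l', -, h4⟩ := hPi.prime.exists_mem_finset_dvd h3
        have h5 : P ∣ e l' := hPi.prime.dvd_of_dvd_pow h4
        by_cases hll : l = l'
        · rw [← hll] at h5
          exact not_dvd_of_cop (heh l) hPi h5 h2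
        · exact hcross l l' P hPm hPi hll (hedvdB l' P h5) h2
      · obtain ⟨i, rfl⟩ := hcl l
        exact h3 i (hdvdB _ P h2)
    have hhcop : ∀ l l', l ≠ l' → IsCoprime (h₁ l * h₂ l) (h₁ l' * h₂ l') := by
      intro l l' hll
      refine cop_of (fun h => (hh12 l).ne_zero h.1) ?_
      intro P hPm hPi h1 h2
      exact hcross l l' P hPm hPi hll (hdvdB l' P h2) h1
    have hscop : ∀ i i', i ≠ i' → cl i = cl i' → IsCoprime (s i - s i') (h₂ (cl i)) := by
      intro i i' hii hcc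
      refine cop_of (fun h => (hh₂ (cl i)).ne_zero h.2) ?_
      intro P hPm hPi h1 h2
      refine hRh (cl i) P (Or.inr ?_) hPm hPi (h2.mul_left _)
      exact h1.trans (SS_s s (fun _ => 1) τ 1 i i' (hs i i' hii hcc))
    -- the numerical conditions
    have hn0 : (0 : ℝ) < n := by exact_mod_cast hn
    have hD1 : ((⌊δ * n / 4⌋₊ : ℕ) : ℝ) ≤ δ * n / 4 := Nat.floor_le (by positivity)
    have hL : (n : ℝ) / 2 - 11 / 2 * (κ * n) ≤ L := by linarith
    have hκn : κ * n ≤ 1 / 22 * n := mul_le_mul_of_nonneg_right hκ22 hn0.le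
    have hκδn : κ * n ≤ δ / 44 * n := mul_le_mul_of_nonneg_right hκδ hn0.le
    have hδn : 0 < δ * n := by positivity
    have hd1 : ∀ l, (n : ℝ) / 2 - κ * n / 8 ≤ (b₁ l).natDegree := by
      intro l
      have : (D₀ : ℝ) ≤ (b₁ l).natDegree := by exact_mod_cast hDd l
      linarith
    have hd2 : ∀ l, 2 * ((b₁ l).natDegree : ℝ) + 1 ≤ n := fun l => by exact_mod_cast hdn l
    have hdd' : ∀ l, ((e l).natDegree : ℝ) + ((h₁ l).natDegree + (h₂ l).natDegree) =
        (b₁ l).natDegree := fun l => by exact_mod_cast hdd l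
    have hδd : ∀ l, δ * n * (1 / 2 - 1 / 176) ≤ δ * (b₁ l).natDegree := by
      intro l
      have h1 : (n : ℝ) * (1 / 2 - 1 / 176) ≤ (b₁ l).natDegree := by
        have := hd1 l
        linarith
      calc δ * n * (1 / 2 - 1 / 176) = δ * (n * (1 / 2 - 1 / 176)) := by ring
        _ ≤ _ := mul_le_mul_of_nonneg_left h1 hδ.le
    have hLpos : 1 ≤ L := by
      have h1 : (0 : ℝ) < L := by linarith
      have h2 : 0 < L := by exact_mod_cast h1
      omega
    have hc1 : ∀ l, (h₁ l).natDegree + ⌊δ * n / 4⌋₊ ≤ L := by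
      intro l
      have h1 : ((h₁ l).natDegree : ℝ) + (⌊δ * n / 4⌋₊ : ℕ) ≤ L := by
        have h2 := hδ2 l
        have h3 := hδd l
        have h4 := hd2 l
        have h5 : (1 / 2 - δ) * ((b₁ l).natDegree : ℝ) =
          (b₁ l).natDegree / 2 - δ * (b₁ l).natDegree := by ring
        rw [h5] at h2
        linarith
      exact_mod_cast h1
    have hc2 : ∀ l, (h₂ l).natDegree + ⌊δ * n / 4⌋₊ ≤ L := by
      intro l
      have h1 : ((h₂ l).natDegree : ℝ) + (⌊δ * n / 4⌋₊ : ℕ) ≤ L := by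
        have h2 := hδ1 l
        have h3 := hδd l
        have h4 := hd2 l
        have h5 := hdd' l
        have h6 : (0 : ℝ) ≤ (e l).natDegree := Nat.cast_nonneg _
        linarith
      exact_mod_cast h1
    have hc3 : ∀ l, L ≤ 2 * (h₂ l).natDegree := by
      intro l
      have h1 : (L : ℝ) ≤ 2 * (h₂ l).natDegree := by
        have h2 := hδ2 l
        have h3 := hκe l
        have h4 := hd1 l
        have h5 := hdd' l
        have h6 : κ₁ * ((b₁ l).natDegree : ℝ) ≤ δ * (b₁ l).natDegree :=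
          mul_le_mul_of_nonneg_right hκ₁δ (Nat.cast_nonneg _)
        have h7 : (1 / 2 - δ) * ((b₁ l).natDegree : ℝ) =
          (b₁ l).natDegree / 2 - δ * (b₁ l).natDegree := by ring
        rw [h7] at h2
        have h8 : (0 : ℝ) ≤ M.natDegree := Nat.cast_nonneg _
        have h9 : 0 < κ * n := by positivity
        linarith
      exact_mod_cast h1
    have hc4 : ∀ l, 2 * (M.natDegree + (L - 1)) + 3 * n ≤
        8 * (e l * (h₁ l * h₂ l)).natDegree + 2 := by
      intro l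
      rw [hdeh l]
      have h1 : 2 * (M.natDegree + L) + 3 * n ≤ 8 * (b₁ l).natDegree := by
        have h2 : 2 * ((M.natDegree : ℝ) + L) + 3 * n ≤ 8 * (b₁ l).natDegree := by
          have := hd1 l
          linarith
        exact_mod_cast h2
      omega
    obtain ⟨l₀⟩ : Nonempty (Fin r) := ⟨⟨0, hr⟩⟩
    have hwm := hW K n L ⌊δ * n / 4⌋₊ (⌊δ * n / 4⌋₊ / (6 * r + 3)) c a M e h₁ h₂ s g cl l₀ χ
      hc hM0 hLpos
      (fun l => ⟨he l, hh₁ l, hh₂ l, heh l, hsq l, hMcop l,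
        (Finset.dvd_prod_of_mem (fun l => e l ^ 5) (Finset.mem_univ l)).trans hEM,
        hc1 l, hc2 l, hc4 l⟩) hhcop (hcl l₀) (fun i => ⟨(hg i).1, hge i⟩) hscop
      (fun i => by
        rw [hB]
        exact G_monic hmon hdeg (hst i)) (hc3 l₀) (Nat.mul_div_le _ _)
    simp only [hB] at hwm
    exact hwm

end main

end Pool.Agent.H233.Par
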