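import Mathlib
import Pool.Agent.H233.Par.FibB

/-!
# Parity in almost prime `k`-tuples (helper985): task FIB (helper233)

The typical fibre: power saving for all `b` outside a small set, uniformly in the shifts and in
progressions.
-/

set_option autoImplicit false

namespace Pool.Agent.H233.Par

open Polynomial
open scoped Classical
open Pool.Agent.H985.Chow (MD)
open Pool.Agent.H985.KP (PA mobg)
open Pool.Agent.H985.Par
open Pool.Agent.H985.Chow.Asm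
open Pool.Agent.H604.FC.Asm4

/-- the final numerical step -/
lemma fin_num {q : ℝ} (hq : 1 < q) {k r n L T : ℕ} {κ₂ A c S Mw : ℝ} (hrk : r ≤ k) (hκ₂ : 0 < κ₂)
    (hA : 1 ≤ A) (hS : 0 ≤ S) (hT : κ₂ * n ≤ T + 1) (hMw : Mw ≤ A ^ k * (q ^ (κ₂ / 2)) ^ n)
    (hn : A ^ k * q * (q ^ (-(κ₂ / 4))) ^ n ≤ 1) (hc : c = κ₂ / (4 * 2 ^ (6 * k + 1)))
    (h : S ^ (2 ^ (6 * r + 1)) ≤ Mw * q ^ (L * 2 ^ (6 * r + 1)) / q ^ T) :
    S ≤ q ^ ((L : ℝ) - c * n) := by
  have hq0 : 0 < q := by linarith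
  have h1 := num_est q hq κ₂ (A ^ k) (by positivity) n T hT Mw hMw
  have e0 : (q ^ (-(κ₂ / 2))) ^ n = (q ^ (-(κ₂ / 4))) ^ n * (q ^ (-(κ₂ / 4))) ^ n := by
    rw [← mul_pow, ← Real.rpow_add hq0]
    congr 2
    ring
  have hp : 0 < (q ^ (-(κ₂ / 4))) ^ n := by positivity
  have h2 : Mw / q ^ T ≤ (q ^ (-(κ₂ / 4))) ^ n := by
    refine h1.trans ?_
    rw [e0, ← mul_assoc]
    exact mul_le_of_le_one_left hp.le hn
  have h3 : S ^ (2 ^ (6 * r + 1)) ≤ (q ^ ((L : ℝ) - c * n)) ^ (2 ^ (6 * r + 1)) := by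
    calc S ^ (2 ^ (6 * r + 1)) ≤ Mw * q ^ (L * 2 ^ (6 * r + 1)) / q ^ T := h
      _ = (Mw / q ^ T) * q ^ (L * 2 ^ (6 * r + 1)) := by ring
      _ ≤ (q ^ (-(κ₂ / 4))) ^ n * q ^ (L * 2 ^ (6 * r + 1)) :=
          mul_le_mul_of_nonneg_right h2 (by positivity)
      _ = q ^ (-(κ₂ / 4) * n + ((L : ℝ) * 2 ^ (6 * r + 1))) := by
          rw [← Real.rpow_natCast (q ^ (-(κ₂ / 4))) n, ← Real.rpow_mul hq0.le,
            ← Real.rpow_natCast q, ← Real.rpow_add hq0]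
          push_cast
          rfl
      _ ≤ q ^ (((L : ℝ) - c * n) * 2 ^ (6 * r + 1)) := by
          apply Real.rpow_le_rpow_of_exponent_le hq.le
          have h4 : (2 : ℝ) ^ (6 * r + 1) ≤ 2 ^ (6 * k + 1) :=
            pow_le_pow_right₀ (by norm_num) (by omega)
          have h5 : (0 : ℝ) < 2 ^ (6 * k + 1) := by positivity
          have h6 : c * 2 ^ (6 * r + 1) ≤ κ₂ / 4 := by
            rw [hc, div_mul_eq_mul_div, div_le_div_iff₀ (by positivity) (by norm_num)]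
            nlinarith
          have h7 : c * n * 2 ^ (6 * r + 1) ≤ κ₂ / 4 * n := by
            calc c * n * 2 ^ (6 * r + 1) = (c * 2 ^ (6 * r + 1)) * n := by ring
              _ ≤ _ := mul_le_mul_of_nonneg_right h6 (Nat.cast_nonneg _)
          linarith
      _ = (q ^ ((L : ℝ) - c * n)) ^ (2 ^ (6 * r + 1)) := by
          rw [← Real.rpow_natCast (q ^ ((L : ℝ) - c * n)), ← Real.rpow_mul hq0.le]
          push_cast
          rfl
  exact (pow_le_pow_iff_left₀ hS (by positivity) (pow_ne_zero _ (by norm_num))).1 h3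

/-- **Task FIB.** -/
theorem fib (hwin : Pool.Agent.H524.FC.S_win5c) (htyp : S_typV) : S_fib := by
  intro K _ _ _ k ε hk hε
  obtain ⟨q, hqdef⟩ : ∃ q : ℝ, q = Fintype.card K := ⟨_, rfl⟩
  have hq1 : (1 : ℝ) < q := by rw [hqdef]; exact_mod_cast Fintype.one_lt_card
  have hq0 : (0 : ℝ) < q := by linarith
  have hk0 : (0 : ℝ) < k := by exact_mod_cast hk
  -- the constants of the window bound
  choose Mf hMf using W5_of hwin k
  obtain ⟨M0, hM0⟩ : ∃ M0 : ℝ, M0 = ∑ r ∈ Finset.range (k + 1), Mf r := ⟨_, rfl⟩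
  have hM0r : ∀ r, r ≤ k → Mf r ≤ M0 := by
    intro r hr
    rw [hM0]
    exact Finset.single_le_sum (f := fun r => Mf r)
      (fun r _ => le_trans zero_le_one (hMf r).1) (Finset.mem_range.2 (by omega))
  have hM01 : 1 ≤ M0 := (hMf 0).1.trans (hM0r 0 (Nat.zero_le _))
  obtain ⟨ε', hε'⟩ : ∃ ε' : ℝ, ε' = ε / (2 * k) := ⟨_, rfl⟩
  have hε'0 : 0 < ε' := by rw [hε']; positivity
  have hkε : k * (2 * ε') = ε := by
    rw [hε']
    field_simp
  obtain ⟨δ, hδ, htyp'⟩ := htyp K ε' hε'0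
  obtain ⟨κ, hκ⟩ : ∃ κ : ℝ, κ = min (1 / 22) (δ / 44) := ⟨_, rfl⟩
  have hκ0 : 0 < κ := by rw [hκ]; exact lt_min (by norm_num) (by positivity)
  have hκ22 : κ ≤ 1 / 22 := by rw [hκ]; exact min_le_left _ _
  have hκδ : κ ≤ δ / 44 := by rw [hκ]; exact min_le_right _ _
  obtain ⟨κ₁, hκ₁⟩ : ∃ κ₁ : ℝ, κ₁ = κ / (3 * k) := ⟨_, rfl⟩
  have hκ₁0 : 0 < κ₁ := by rw [hκ₁]; positivity
  have hkκ₁ : k * κ₁ = κ / 3 := by
    rw [hκ₁]
    field_simp
  have hκ₁κ : κ₁ ≤ κ := by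
    have h1 : κ₁ ≤ k * κ₁ := by
      have : (1 : ℝ) ≤ k := by exact_mod_cast hk
      nlinarith
    linarith
  have hκ₁δ : κ₁ ≤ δ := by linarith
  obtain ⟨θ₁, hθ₁, d₀, hd₀⟩ := htyp' κ₁ hκ₁0
  obtain ⟨j, hj⟩ := exists_pow_lt_of_lt_one hε'0
    (show 1 / (Fintype.card K : ℝ) < 1 by rw [← hqdef, div_lt_one hq0]; exact hq1)
  obtain ⟨y, hy⟩ := exists_pow_lt_of_lt_one (show (0 : ℝ) < θ₁ / (32 * k ^ 2) by positivity)
    (show 1 / (Fintype.card K : ℝ) < 1 by rw [← hqdef, div_lt_one hq0]; exact hq1)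
  rw [← hqdef] at hy
  obtain ⟨κ₂, hκ₂⟩ : ∃ κ₂ : ℝ, κ₂ = δ / (4 * (6 * k + 3)) := ⟨_, rfl⟩
  have hκ₂0 : 0 < κ₂ := by rw [hκ₂]; positivity
  obtain ⟨A, hA1, hA⟩ := omega_bound K M0 hM01 (q ^ (κ₂ / 2 / k))
    (Real.one_lt_rpow hq1 (by positivity))
  obtain ⟨m1, hm1⟩ := tend (A ^ k * q) (q ^ (-(κ₂ / 4))) 1 (by positivity)
    (Real.rpow_lt_one_of_one_lt_of_neg hq1 (by linarith)) one_pos
  obtain ⟨m2, hm2⟩ := exists_nat_gt (8 * (1 + j) / κ)
  obtain ⟨m3, hm3⟩ := exists_nat_gt (16 * (y * q ^ (y + 1)) / θ₁)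
  refine ⟨κ, θ₁ / 16, κ₂ / (4 * 2 ^ (6 * k + 1)), hκ0, by linarith, by positivity, by positivity,
    m1 + m2 + m3 + 4 * d₀ + 1, ?_⟩
  intro n hn s t R hst hdst hmass
  have hn1 : 1 ≤ n := by omega
  have hn0 : (0 : ℝ) < n := by exact_mod_cast hn1
  -- the classes
  obtain ⟨r, τ, cl, hτ, hcl, hcls, hrk⟩ : ∃ (r : ℕ) (τ : Fin r → K[X]) (cl : Fin k → Fin r),
      Function.Injective τ ∧ (∀ i, τ (cl i) = t i) ∧ Function.Surjective cl ∧ r ≤ k := by
    refine ⟨(Finset.univ.image t).card, fun l => ((Finset.univ.image t).equivFin.symm l : K[X]),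
      fun i => (Finset.univ.image t).equivFin ⟨t i, Finset.mem_image_of_mem t (Finset.mem_univ i)⟩,
      ?_, ?_, ?_, ?_⟩
    · intro l l' h
      exact (Finset.univ.image t).equivFin.symm.injective (Subtype.ext h)
    · intro i
      simp
    · intro l
      have h1 := ((Finset.univ.image t).equivFin.symm l).2
      rw [Finset.mem_image] at h1
      obtain ⟨i, -, hi⟩ := h1
      refine ⟨i, ?_⟩
      apply (Finset.univ.image t).equivFin.symm.injective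
      rw [Equiv.symm_apply_apply]
      exact Subtype.ext hi
    · refine Finset.card_image_le.trans ?_
      rw [Finset.card_univ, Fintype.card_fin]
  have hr0 : 0 < r := by
    have := (cl ⟨0, by omega⟩).2
    omega
  have hs : ∀ i i', i ≠ i' → cl i = cl i' → s i ≠ s i' := by
    intro i i' hii hc h
    apply hii
    apply hst
    simp only
    rw [h, ← hcl i, ← hcl i', hc]
  have hdst' : ∀ i, (s i ^ 2 + X * τ (cl i) ^ 2).natDegree < n := by
    intro i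
    rw [hcl]
    exact hdst i
  have hsm : ∀ i, s i ∈ degreeLT K ((n + 1) / 2) := fun i => (mem_of_G (hdst i)).1
  have hτm : ∀ l, τ l ∈ degreeLT K (n / 2) := by
    intro l
    obtain ⟨i, rfl⟩ := hcls l
    exact (mem_of_G (hdst' i)).2
  -- the lower bound for the degrees
  obtain ⟨D₀, hD₀⟩ : ∃ D₀ : ℕ, D₀ = ⌈(1 / 2 - κ / 8) * (n : ℝ)⌉₊ := ⟨_, rfl⟩
  have hD1 : (1 / 2 - κ / 8) * (n : ℝ) ≤ D₀ := by
    rw [hD₀]
    exact Nat.le_ceil _
  have hD2 : (D₀ : ℝ) < (1 / 2 - κ / 8) * (n : ℝ) + 1 := by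
    rw [hD₀]
    apply Nat.ceil_lt_add_one
    apply mul_nonneg _ hn0.le
    linarith
  have hκn : κ * n ≤ 1 / 22 * n := mul_le_mul_of_nonneg_right hκ22 hn0.le
  have hDn : (n : ℝ) / 4 ≤ D₀ := by linarith
  have hm2' : 8 * (1 + (j : ℝ)) ≤ κ * n := by
    have h1 : (m2 : ℝ) ≤ n := by exact_mod_cast (by omega : m2 ≤ n)
    have h2 : 8 * (1 + (j : ℝ)) / κ ≤ n := hm2.le.trans h1
    rw [div_le_iff₀ hκ0] at h2
    linarith
  have hDj : D₀ + j ≤ n / 2 := by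
    rw [Nat.le_div_iff_mul_le (by norm_num)]
    have h1 : ((D₀ : ℝ) + j) * 2 ≤ n := by linarith
    exact_mod_cast h1
  have hm3' : (y : ℝ) * q ^ (y + 1) ≤ θ₁ / 16 * n := by
    have h1 : (m3 : ℝ) ≤ n := by exact_mod_cast (by omega : m3 ≤ n)
    have h2 : 16 * (y * q ^ (y + 1)) / θ₁ ≤ n := hm3.le.trans h1
    rw [div_le_iff₀ hθ₁] at h2
    linarith
  -- the enlarged set of primes
  obtain ⟨R0, hR0⟩ : ∃ R0 : Set K[X], R0 = R ∪ {P | P ∣ SS s (fun _ => 1) τ 1} := ⟨_, rfl⟩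
  have hSS0 : SS s (fun _ => (1 : K[X])) τ 1 ≠ 0 :=
    SS_ne s (fun _ => 1) τ 1 (fun _ => monic_one) one_ne_zero
  have hSSd : (SS s (fun _ => (1 : K[X])) τ 1).natDegree ≤ (r * r + k * k) * n := by
    apply SS_natDegree
    · intro i
      have := natDegree_of_mem (hsm i)
      omega
    · intro l
      have := natDegree_of_mem (hτm l)
      omega
  have hmass0 : mass R0 n ≤ 3 * (θ₁ / 16 * n) := by
    rw [hR0]
    refine (mass_union _ _ _).trans ?_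
    have h1 := mass_dvd (SS s (fun _ => (1 : K[X])) τ 1) hSS0 n y
    rw [← hqdef] at h1
    have h2 : ((SS s (fun _ => (1 : K[X])) τ 1).natDegree : ℝ) ≤ 2 * k ^ 2 * n := by
      have h3 : ((SS s (fun _ => (1 : K[X])) τ 1).natDegree : ℝ) ≤ ((r * r + k * k) * n : ℕ) := by
        exact_mod_cast hSSd
      refine h3.trans ?_
      push_cast
      have h4 : (r : ℝ) ≤ k := by exact_mod_cast hrk
      have h5 : (0 : ℝ) ≤ r := Nat.cast_nonneg _
      have h6 : (r : ℝ) * r ≤ k * k := mul_le_mul h4 h4 h5 hk0.le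
      have h7 : (r : ℝ) * r + k * k ≤ 2 * k ^ 2 := by nlinarith
      exact mul_le_mul_of_nonneg_right h7 hn0.le
    have h3 : ((SS s (fun _ => (1 : K[X])) τ 1).natDegree : ℝ) / q ^ y ≤ θ₁ / 16 * n := by
      calc ((SS s (fun _ => (1 : K[X])) τ 1).natDegree : ℝ) / q ^ y
          ≤ (2 * k ^ 2 * n) / q ^ y := div_le_div_of_nonneg_right h2 (by positivity)
        _ = (2 * k ^ 2 * n) * (1 / q) ^ y := by rw [one_div, inv_pow, div_eq_mul_inv]
        _ ≤ (2 * k ^ 2 * n) * (θ₁ / (32 * k ^ 2)) :=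
            mul_le_mul_of_nonneg_left hy.le (by positivity)
        _ = θ₁ / 16 * n := by
            field_simp
            ring
    linarith
  -- the exceptional set
  refine ⟨ExcP τ (GoodV R0 δ κ₁) D₀ n, fun b hb => hb.1, ?_, ?_⟩
  · have h1 := Exc_card τ (GoodV R0 δ κ₁) D₀ n hτm
    have h2 := badP_card (K := K) (GoodV R0 δ κ₁) D₀ j n ε' hε'0 hj.le (fun d hd1 hd2 => by
      apply hd₀ d
      · have h3 : (d₀ : ℝ) ≤ D₀ := by
          have h4 : (4 * (d₀ : ℝ)) ≤ n := by exact_mod_cast (by omega : 4 * d₀ ≤ n)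
          linarith
        have h5 : d₀ ≤ D₀ := by exact_mod_cast h3
        exact h5.trans hd1
      · refine (mass_mono R0 (by omega : d ≤ n)).trans (hmass0.trans ?_)
        have h3 : (D₀ : ℝ) ≤ d := by exact_mod_cast hd1
        have h4 : 3 * ((n : ℝ) / 16) ≤ d := by linarith
        calc 3 * (θ₁ / 16 * n) = θ₁ * (3 * (n / 16)) := by ring
          _ ≤ θ₁ * d := mul_le_mul_of_nonneg_left h4 hθ₁.le) hDj
    have h3 : ((ExcP τ (GoodV R0 δ κ₁) D₀ n).ncard : ℝ) ≤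
        r * ((badP (K := K) (GoodV R0 δ κ₁) D₀ n).card : ℝ) := by exact_mod_cast h1
    have h4 : (r : ℝ) ≤ k := by exact_mod_cast hrk
    calc ((ExcP τ (GoodV R0 δ κ₁) D₀ n).ncard : ℝ)
        ≤ r * ((badP (K := K) (GoodV R0 δ κ₁) D₀ n).card : ℝ) := h3
      _ ≤ k * (2 * ε' * (Fintype.card K : ℝ) ^ (n / 2)) :=
          mul_le_mul h4 h2 (Nat.cast_nonneg _) hk0.le
      _ = (k * (2 * ε')) * (Fintype.card K : ℝ) ^ (n / 2) := by ring
      _ = ε * (Fintype.card K : ℝ) ^ (n / 2) := by rw [hkε]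
  · intro b hb hbe
    have hgood : ∀ l, gdP (GoodV (R ∪ {P | P ∣ SS s (fun _ => 1) τ 1}) δ κ₁) D₀ (b + τ l) := by
      intro l
      by_contra hl
      rw [← hR0] at hl
      exact hbe ⟨hb, l, hl⟩
    obtain ⟨E, hEm, hEd, hER, hmain⟩ := local_bound (hMf r) s τ cl hcls hr0 hτ hs δ κ κ₁ hδ hκ0
      hκ22 hκδ hκ₁0.le hκ₁δ n D₀ hn1 hD1 hdst' R b hb hgood
    refine ⟨E, hEm, ?_, ?_, ?_⟩
    · have h4 : (r : ℝ) ≤ k := by exact_mod_cast hrk
      calc (E.natDegree : ℝ) ≤ r * (5 * (κ₁ * (n / 2))) := hEd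
        _ ≤ k * (5 * (κ₁ * (n / 2))) := mul_le_mul_of_nonneg_right h4 (by positivity)
        _ = (k * κ₁) * (5 / 2 * n) := by ring
        _ = (κ / 3) * (5 / 2 * n) := by rw [hkκ₁]
        _ ≤ κ * n := by
            have : 0 < κ * n := by positivity
            linarith
    · intro P hP hPm hPi hPb
      obtain ⟨i, hi⟩ := hPb
      exact hER P hP hPm hPi ⟨i, by rw [hcl]; exact hi⟩
    · intro M g L a χ hM hEM hMd hMP hg hmon hdeg hL1 hL2
      obtain ⟨H, hH, hbound⟩ := hmain M g L a χ hM hEM hMd (fun P hPm hPi hPM => by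
        rcases hMP P hPm hPi hPM with h | h
        · exact Or.inl h
        · exact Or.inr fun i => by rw [hcl]; exact h i) hg hmon hdeg hL1 hL2
      simp only [hcl] at hbound
      rw [← hqdef] at hbound ⊢
      refine fin_num hq1 hrk hκ₂0 hA1 (abs_nonneg _) ?_ ?_ (hm1 n (by omega)) rfl hbound
      · -- the bound for `T`
        have h1 : ⌊δ * n / 4⌋₊ + 1 ≤ (6 * r + 3) * (⌊δ * n / 4⌋₊ / (6 * r + 3) + 1) :=
          Nat.lt_mul_div_succ _ (by omega)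
        have h2 : δ * n / 4 < (⌊δ * n / 4⌋₊ : ℝ) + 1 := Nat.lt_floor_add_one _
        have h3 : ((⌊δ * n / 4⌋₊ : ℕ) : ℝ) + 1 ≤
            (6 * r + 3) * (((⌊δ * n / 4⌋₊ / (6 * r + 3) : ℕ) : ℝ) + 1) := by exact_mod_cast h1
        have h4 : (r : ℝ) ≤ k := by exact_mod_cast hrk
        have h5 : (0 : ℝ) ≤ ((⌊δ * n / 4⌋₊ / (6 * r + 3) : ℕ) : ℝ) + 1 := by positivity
        have h6 : (6 * (r : ℝ) + 3) * (((⌊δ * n / 4⌋₊ / (6 * r + 3) : ℕ) : ℝ) + 1) ≤
            (6 * k + 3) * (((⌊δ * n / 4⌋₊ / (6 * r + 3) : ℕ) : ℝ) + 1) :=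
          mul_le_mul_of_nonneg_right (by linarith) h5
        rw [hκ₂, div_mul_eq_mul_div, div_le_iff₀ (by positivity)]
        linarith
      · -- the number of primes
        have hMr : Mf r ≤ M0 := hM0r r hrk
        have hMr0 : 0 ≤ Mf r := le_trans zero_le_one (hMf r).1
        have hη1 : (1 : ℝ) ≤ q ^ (κ₂ / 2 / k) := Real.one_le_rpow hq1.le (by positivity)
        have hAη : 1 ≤ A * (q ^ (κ₂ / 2 / k)) ^ n :=
          one_le_mul_of_one_le_of_one_le hA1 (one_le_pow₀ hη1)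
        calc Mf r ^ (∑ l, (PA (H l)).ncard) ≤ M0 ^ (∑ l, (PA (H l)).ncard) :=
              pow_le_pow_left₀ hMr0 hMr _
          _ = ∏ l, M0 ^ (PA (H l)).ncard := by rw [Finset.prod_pow_eq_pow_sum]
          _ ≤ ∏ _l : Fin r, (A * (q ^ (κ₂ / 2 / k)) ^ n) := by
              apply Finset.prod_le_prod
              · intro l _
                have : 0 ≤ M0 := by linarith
                positivity
              · intro l _
                exact hA (H l) (hH l).1 n (hH l).2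
          _ = (A * (q ^ (κ₂ / 2 / k)) ^ n) ^ r := by
              rw [Finset.prod_const, Finset.card_univ, Fintype.card_fin]
          _ ≤ (A * (q ^ (κ₂ / 2 / k)) ^ n) ^ k := pow_le_pow_right₀ hAη hrk
          _ = A ^ k * (q ^ (κ₂ / 2)) ^ n := by
              rw [mul_pow, ← pow_mul, mul_comm n k, pow_mul,
                ← Real.rpow_natCast (q ^ (κ₂ / 2 / k)) k, ← Real.rpow_mul hq0.le,
                div_mul_cancel₀ _ hk0.ne']

end Pool.Agent.H233.Par
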